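import Pool.Agent.KS6_69.RN.Base

/-!
# Residual nilpotence of iterated central extensions: countable metabelian 2-groups, kernel of order two

The group `G` of an earlier run (a restricted direct product of generalised quaternion groups) and two
successive central extensions of it, now inside the class of countable metabelian 2-groups in which
every finite set lies in a finite normal subgroup.
-/

set_option autoImplicit false
open scoped commutatorElement

namespace Pool.Agent.Results.MP_c9c98b_al.DirectSumOfTwoGroups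

open Pool.Agent.KS6_69.RN

/-- Countable metabelian 2-groups in which every finite subset lies in a finite normal subgroup (so they
are locally finite and have finite conjugacy classes). -/
structure IsTame (G : Type) [Group G] : Prop where
  countable : Countable G
  pGroup : IsPGroup 2 G
  metabelian : ∀ a b c d : G, ⁅⁅a, b⁆, ⁅c, d⁆⁆ = 1
  finiteNormal : ∀ s : Set G, s.Finite → ∃ N : Subgroup G, N.Normal ∧ Finite N ∧ s ⊆ N

lemma IsTame.of_surjective {A B : Type} [Group A] [Group B] (h : IsTame A) (f : A →* B)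
    (hf : Function.Surjective f) : IsTame B where
  countable := by
    have := h.countable
    exact hf.countable
  pGroup := h.pGroup.of_surjective f hf
  metabelian := by
    intro a b c d
    obtain ⟨a, rfl⟩ := hf a
    obtain ⟨b, rfl⟩ := hf b
    obtain ⟨c, rfl⟩ := hf c
    obtain ⟨d, rfl⟩ := hf d
    rw [← map_commutatorElement, ← map_commutatorElement, ← map_commutatorElement, h.metabelian,
      map_one]
  finiteNormal := by
    intro s hs
    obtain ⟨t, ht, hts⟩ : ∃ t : Set A, t.Finite ∧ s ⊆ f '' t := by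
      choose g hg using hf
      exact ⟨g '' s, hs.image g, fun x hx => ⟨g x, ⟨x, hx, rfl⟩, hg x⟩⟩
    obtain ⟨N, hN, hNf, htN⟩ := h.finiteNormal t ht
    refine ⟨N.map f, hN.map f hf, ?_, ?_⟩
    · have : ((N.map f : Subgroup B) : Set B).Finite := by
        rw [Subgroup.coe_map]
        exact (Set.toFinite (N : Set A)).image f
      exact this.to_subtype
    · intro x hx
      obtain ⟨y, hy, rfl⟩ := hts hx
      exact ⟨y, htN hy, rfl⟩

lemma mem_W0_of (a : H) (hv : ∀ k, (4 : ℤ) ∣ a.v k) (hu : ∀ k, 2 ^ (k + 2) ∣ a.u k) : a ∈ W0 :=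
  ⟨fun k => ⟨hv k, (pow_dvd_pow 2 (Nat.le_succ (k + 1))).trans (hu k)⟩, ψ_int _ hu⟩

/-- The elements of `H` with support in `K`. -/
def HK (K : Finset ℕ) : Subgroup H where
  carrier := {h | ∀ k ∉ K, h.u k = 0 ∧ h.v k = 0}
  one_mem' := fun k _ => by simp
  mul_mem' := by
    intro a b ha hb k hk
    simp [(ha k hk).1, (ha k hk).2, (hb k hk).1, (hb k hk).2]
  inv_mem' := by
    intro a ha k hk
    simp [(ha k hk).1, (ha k hk).2]

instance (K : Finset ℕ) : (HK K).Normal := ⟨by
  intro a ha b k hk
  refine ⟨?_, by simp [(ha k hk).2]⟩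
  rw [conj_u _ _ _ (by rw [(ha k hk).2, s_zero]), (ha k hk).1, mul_zero]⟩

lemma finite_HK (K : Finset ℕ) : ((QuotientGroup.mk' W0) '' (HK K : Set H)).Finite := by
  let R : Set H := (fun p : (ℕ →₀ ℤ) × (ℕ →₀ ℤ) => (⟨p.1, p.2⟩ : H)) ''
    (((K.finsupp fun k => Finset.Ico (0 : ℤ) (2 ^ (k + 2))) ×ˢ
      (K.finsupp fun _ => Finset.Ico (0 : ℤ) 4) : Finset _) : Set ((ℕ →₀ ℤ) × (ℕ →₀ ℤ)))
  have hR : R.Finite := (Finset.finite_toSet _).image _
  refine (hR.image (QuotientGroup.mk' W0)).subset ?_
  rintro _ ⟨a, ha, rfl⟩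
  let u' : ℕ →₀ ℤ := Finsupp.onFinset K (fun k => a.u k % 2 ^ (k + 2)) fun k hk => by
    by_contra h
    exact hk (by simp [(ha k h).1])
  let v' : ℕ →₀ ℤ := Finsupp.onFinset K (fun k => a.v k % 4) fun k hk => by
    by_contra h
    exact hk (by simp [(ha k h).2])
  refine ⟨⟨u', v'⟩, ⟨(u', v'), ?_, rfl⟩, ?_⟩
  · rw [Finset.mem_coe, Finset.mem_product, Finset.mem_finsupp_iff, Finset.mem_finsupp_iff]
    refine ⟨⟨show u'.support ⊆ K from Finsupp.support_onFinset_subset, fun k _ => ?_⟩,
      ⟨show v'.support ⊆ K from Finsupp.support_onFinset_subset, fun k _ => ?_⟩⟩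
    · simp only [u', Finsupp.onFinset_apply, Finset.mem_Ico]
      exact ⟨Int.emod_nonneg _ (by positivity), Int.emod_lt_of_pos _ (by positivity)⟩
    · simp only [v', Finsupp.onFinset_apply, Finset.mem_Ico]
      exact ⟨Int.emod_nonneg _ (by norm_num), Int.emod_lt_of_pos _ (by norm_num)⟩
  · rw [QuotientGroup.mk'_apply, QuotientGroup.mk'_apply, QuotientGroup.eq]
    refine mem_W0_of _ (fun k => ?_) fun k => ?_
    · simp only [mul_v, inv_v, Finsupp.add_apply, Finsupp.neg_apply, v', Finsupp.onFinset_apply]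
      omega
    · simp only [mul_u, inv_u, inv_v, Finsupp.neg_apply, s_neg, u', v', Finsupp.onFinset_apply]
      have h1 : (2 : ℤ) ^ (k + 2) ∣ a.u k - a.u k % 2 ^ (k + 2) := Int.dvd_self_sub_emod
      exact dv (h1.mul_left (s (a.v k % 4))) (by ring)

lemma pow_even (a : H) (ha : ∀ k, s (a.v k) = 1) (n : ℕ) :
    (a ^ n).u = n • a.u ∧ (a ^ n).v = n • a.v := by
  induction n with
  | zero => simp
  | succ n ih =>
    rw [pow_succ]
    constructor
    · ext k
      rw [mul_u, ih.1, ih.2]
      have : s ((n • a.v) k) = 1 := by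
        rw [Finsupp.smul_apply]
        rcases Nat.even_or_odd n with h | h
        · obtain ⟨c, rfl⟩ := h
          rw [← two_mul, mul_smul, show (2 : ℕ) • c • a.v k = 2 * (c • a.v k) by simp, s_two]
        · obtain ⟨c, rfl⟩ := h
          rw [add_smul, one_smul, s_add, ha k, mul_one, mul_smul,
            show (2 : ℕ) • c • a.v k = 2 * (c • a.v k) by simp, s_two]
      rw [this, add_smul]
      simp
    · rw [mul_v, ih.2, add_smul, one_smul]

lemma isTame_E2 : IsTame (H ⧸ W0) where
  countable := by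
    have : Countable H := by
      have h : Function.Injective (fun a : H => (a.u, a.v)) := by
        intro a b hab
        simp only [Prod.mk.injEq] at hab
        exact H.ext hab.1 hab.2
      exact h.countable
    exact QuotientGroup.mk_surjective.countable
  pGroup := by
    intro g
    obtain ⟨h, rfl⟩ := QuotientGroup.mk_surjective g
    obtain ⟨m, hm⟩ : ∃ m, ∀ k ∈ (h * h).u.support, k + 2 ≤ m := by
      refine ⟨(h * h).u.support.sup id + 2, fun k hk => ?_⟩
      have : id k ≤ (h * h).u.support.sup id := Finset.le_sup hk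
      simp only [id] at this
      omega
    refine ⟨m + 1 + 1, ?_⟩
    rw [← QuotientGroup.mk_pow, QuotientGroup.eq_one_iff, pow_succ' 2, pow_mul, sq]
    have he : ∀ k, s ((h * h).v k) = 1 := by
      intro k
      rw [mul_v, Finsupp.add_apply, ← two_mul, s_two]
    have := pow_even _ he (2 ^ (m + 1))
    refine mem_W0_of _ (fun k => ?_) fun k => ?_
    · rw [this.2, Finsupp.smul_apply, mul_v, Finsupp.add_apply, nsmul_eq_mul, pow_succ]
      push_cast
      exact ⟨2 ^ m * h.v k, by ring⟩
    · rw [this.1, Finsupp.smul_apply, nsmul_eq_mul]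
      push_cast
      by_cases hk : k ∈ (h * h).u.support
      · exact (pow_dvd_pow 2 ((hm k hk).trans (Nat.le_succ m))).mul_right _
      · rw [Finsupp.notMem_support_iff.1 hk]; simp
  metabelian := by
    intro a b c d
    obtain ⟨a, rfl⟩ := QuotientGroup.mk'_surjective W0 a
    obtain ⟨b, rfl⟩ := QuotientGroup.mk'_surjective W0 b
    obtain ⟨c, rfl⟩ := QuotientGroup.mk'_surjective W0 c
    obtain ⟨d, rfl⟩ := QuotientGroup.mk'_surjective W0 d
    rw [← map_commutatorElement, ← map_commutatorElement, ← map_commutatorElement]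
    have : ⁅⁅a, b⁆, ⁅c, d⁆⁆ = 1 := by
      ext k
      · rw [comm_u, comm_v, comm_v]; simp [s_zero]
      · rw [comm_v]; simp
    rw [this, map_one]
  finiteNormal := by
    intro t ht
    obtain ⟨K, hK⟩ : ∃ K : Finset ℕ, ∀ x ∈ t, x ∈ (QuotientGroup.mk' W0) '' (HK K : Set H) := by
      induction t, ht using Set.Finite.induction_on with
      | empty => exact ⟨∅, by simp⟩
      | @insert a t _ _ ih =>
        obtain ⟨K, hK⟩ := ih
        obtain ⟨h, rfl⟩ := QuotientGroup.mk'_surjective W0 a
        refine ⟨K ∪ (h.u.support ∪ h.v.support), fun x hx => ?_⟩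
        rcases Set.mem_insert_iff.1 hx with rfl | hx
        · refine ⟨h, fun k hk => ?_, rfl⟩
          simp only [Finset.mem_union, not_or, Finsupp.notMem_support_iff] at hk
          exact hk.2
        · obtain ⟨y, hy, rfl⟩ := hK x hx
          exact ⟨y, fun k hk => hy k fun h => hk (Finset.mem_union_left _ h), rfl⟩
    refine ⟨(HK K).map (QuotientGroup.mk' W0),
      Subgroup.Normal.map inferInstance _ (QuotientGroup.mk'_surjective W0), ?_, fun x hx => ?_⟩
    · have : (((HK K).map (QuotientGroup.mk' W0) : Subgroup (H ⧸ W0)) : Set (H ⧸ W0)).Finite := by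
        rw [Subgroup.coe_map]
        exact finite_HK K
      exact this.to_subtype
    · exact hK x hx

lemma ψ_half (u : ℕ →₀ ℤ) (h : ∀ k, 2 ^ (k + 1) ∣ u k) : ∃ m : ℤ, 2 * ψ u = m := by
  obtain ⟨m, hm⟩ := ψ_int ((2 : ℤ) • u) (fun k => by
    rw [Finsupp.smul_apply, smul_eq_mul, pow_succ']
    exact mul_dvd_mul_left 2 (h k))
  refine ⟨m, ?_⟩
  rw [map_smul] at hm
  rw [← hm]
  simp

/-- The kernel of `H ⧸ W0 → H ⧸ W` consists of two elements. -/
lemma ker_eq (x : H ⧸ W0)
    (hx : x ∈ (QuotientGroup.map W0 W (MonoidHom.id H) (fun _ h => h.1)).ker) :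
    x = 1 ∨ x = QuotientGroup.mk (xx (Finsupp.single 0 2)) := by
  obtain ⟨h, rfl⟩ := QuotientGroup.mk_surjective x
  have hW : h ∈ W := (QuotientGroup.eq_one_iff h).1 hx
  obtain ⟨m, hm⟩ := ψ_half h.u fun k => (hW k).2
  rcases Int.even_or_odd' m with ⟨c, rfl | rfl⟩
  · left
    rw [QuotientGroup.eq_one_iff]
    refine ⟨hW, c, ?_⟩
    push_cast at hm
    linarith
  · right
    rw [QuotientGroup.eq]
    refine ⟨W.mul_mem (W.inv_mem hW) ?_, -c, ?_⟩
    · intro k
      refine ⟨by simp [xx], ?_⟩
      simp only [xx, Finsupp.single_apply]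
      split_ifs with h0
      · simp [← h0]
      · exact dvd_zero _
    · have e : (h⁻¹ * xx (Finsupp.single 0 2)).u = Finsupp.single 0 2 - h.u := by
        ext k
        simp only [mul_u, inv_u, inv_v, Finsupp.neg_apply, s_neg, s_W hW, xx, Finsupp.sub_apply]
        ring
      rw [e, map_sub, ψ, Finsupp.linearCombination_single, ← ψ]
      push_cast at hm ⊢
      rw [zsmul_eq_mul]
      push_cast
      linarith

lemma nilpotent_quotient {E : Type*} [Group E] (n : ℕ) :
    Group.IsNilpotent (E ⧸ (⊤ : Subgroup E).lowerCentralSeries n) := by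
  rw [Subgroup.nilpotent_iff_lowerCentralSeries]
  refine ⟨n, ?_⟩
  rw [← lcs_map _ (QuotientGroup.mk'_surjective _), Subgroup.map_eq_bot_iff, QuotientGroup.ker_mk']

/-- There are countable metabelian 2-groups `G`, `E₁`, `E₂`, in which all finite sets lie in finite normal
subgroups, and central extensions `f₁ : E₁ → G` with kernel of exponent two, `f₂ : E₂ → E₁` with kernel
of order two, such that

* for every central extension `f : E → G` (in any universe) the third term of the lower central series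
  of `E` meets the kernel of `f` trivially, and the intersection of the lower central series of `E`
  is trivial;
* the kernel of `f₂` lies in every term of the lower central series of `E₂`. -/
theorem result.{u} : ∃ (G E₁ E₂ : Type) (_ : Group G) (_ : Group E₁) (_ : Group E₂)
    (f₁ : E₁ →* G) (f₂ : E₂ →* E₁),
    IsTame G ∧ IsTame E₁ ∧ IsTame E₂ ∧
    (∀ (E : Type u) [Group E] (f : E →* G), Function.Surjective f → f.ker ≤ Subgroup.center E →
      (⊤ : Subgroup E).lowerCentralSeries 2 ⊓ f.ker = ⊥ ∧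
        ⨅ n, (⊤ : Subgroup E).lowerCentralSeries n = ⊥) ∧
    (Function.Surjective f₁ ∧ f₁.ker ≤ Subgroup.center E₁ ∧ ∀ x ∈ f₁.ker, x ^ 2 = 1) ∧
    (Function.Surjective f₂ ∧ f₂.ker ≤ Subgroup.center E₂ ∧ Nat.card f₂.ker = 2) ∧
    ∀ n, f₂.ker ≤ (⊤ : Subgroup E₂).lowerCentralSeries n := by
  have c1 := central_of W V W_le_V comm_V
  have c2 := central_of W0 W (fun _ h => h.1) comm_W
  have hg := not_resnil
  set z : H ⧸ W0 := QuotientGroup.mk (xx (Finsupp.single 0 2)) with hz
  have hzk : z ∈ (QuotientGroup.map W0 W (MonoidHom.id H) (fun _ h => h.1)).ker := by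
    refine (QuotientGroup.eq_one_iff (N := W) (xx (Finsupp.single 0 2))).2 ?_
    intro k
    refine ⟨by simp [xx], ?_⟩
    simp only [xx, Finsupp.single_apply]
    split_ifs with h0
    · simp [← h0]
    · exact dvd_zero _
  refine ⟨H ⧸ V, H ⧸ W, H ⧸ W0, inferInstance, inferInstance, inferInstance, _, _,
    (isTame_E2.of_surjective _ c2.1).of_surjective _ c1.1, isTame_E2.of_surjective _ c2.1, isTame_E2,
    ?_, ⟨c1.1, c1.2, ?_⟩, ⟨c2.1, c2.2, ?_⟩, ?_⟩
  · intro E _ f hf hc
    refine ⟨?_, ?_⟩
    · rw [eq_bot_iff]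
      rintro g ⟨h1, h2⟩
      exact key f hf hc g h1 h2
    · rw [eq_bot_iff]
      intro g hg
      rw [Subgroup.mem_iInf] at hg
      refine key f hf hc g (hg 2) (resnil_G _ fun n => ?_)
      rw [← lcs_map f hf]
      exact Subgroup.mem_map_of_mem f (hg n)
  · intro x hx
    obtain ⟨h, rfl⟩ := QuotientGroup.mk_surjective x
    have hV : h ∈ V := (QuotientGroup.eq_one_iff h).1 hx
    rw [← QuotientGroup.mk_pow, QuotientGroup.eq_one_iff]
    intro k
    obtain ⟨c, h1, h2⟩ := hV k
    rw [sq]
    refine ⟨?_, ?_⟩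
    · rw [mul_v, Finsupp.add_apply, h1]
      exact ⟨c, by ring⟩
    · rw [mul_u, h1, s_two, one_mul, ← two_mul, pow_succ']
      refine mul_dvd_mul_left 2 ?_
      exact (dvd_add_left (Dvd.intro c rfl)).1 ((pow_dvd_pow 2 (by omega)).trans h2)
  · rw [Nat.card_eq_two_iff]
    refine ⟨1, ⟨z, hzk⟩, fun h => hg.1 (congrArg Subtype.val h).symm, ?_⟩
    ext x
    simp only [Set.mem_insert_iff, Set.mem_singleton_iff, Set.mem_univ, iff_true]
    rcases ker_eq x.1 x.2 with h | h
    · left; exact Subtype.ext h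
    · right; exact Subtype.ext h
  · intro n x hx
    rcases ker_eq x hx with rfl | rfl
    · exact Subgroup.one_mem _
    · have h1 := hg.2 ((H ⧸ W0) ⧸ (⊤ : Subgroup (H ⧸ W0)).lowerCentralSeries n) inferInstance
        (QuotientGroup.mk' _) (nilpotent_quotient n)
      exact (QuotientGroup.eq_one_iff _).1 h1

end Pool.Agent.Results.MP_c9c98b_al.DirectSumOfTwoGroups
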